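import Pool.Agent.V5helper26.IR.Stm

/-!
# Project IR, job CORE
-/

set_option autoImplicit false

open Finset Filter Topology
open scoped Classical

namespace Pool.Agent.V5helper18.IR

open Pool.Agent.V5helper26.IR

section basic

variable {α : Type} [Fintype α] {r : α → α → Prop} {M : ℕ}

lemma pr_mono {p q : (α → ℕ) → Prop} (h : ∀ f ∈ Om r M, p f → q f) : pr r M p ≤ pr r M q := by
  rw [pr, pr]
  refine div_le_div_of_nonneg_right ?_ (Nat.cast_nonneg _)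
  exact_mod_cast card_le_card fun f hf => by
    rw [mem_filter] at hf ⊢
    exact ⟨hf.1, h f hf.1 hf.2⟩

lemma pr_le_add {p q s : (α → ℕ) → Prop} (h : ∀ f ∈ Om r M, s f → p f ∨ q f) :
    pr r M s ≤ pr r M p + pr r M q := by
  rw [pr, pr, pr, ← add_div]
  refine div_le_div_of_nonneg_right ?_ (Nat.cast_nonneg _)
  rw [← Nat.cast_add, Nat.cast_le]
  refine (card_le_card fun f hf => ?_).trans
    (card_union_le ((Om r M).filter p) ((Om r M).filter q))
  have h1 := mem_filter.1 hf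
  exact mem_union.2 ((h f h1.1 h1.2).imp (fun h => mem_filter.2 ⟨h1.1, h⟩)
    fun h => mem_filter.2 ⟨h1.1, h⟩)

lemma pr_or (p q : (α → ℕ) → Prop) : pr r M (fun f => p f ∨ q f) ≤ pr r M p + pr r M q :=
  pr_le_add fun _ _ h => h

lemma pr_nonneg (p : (α → ℕ) → Prop) : 0 ≤ pr r M p :=
  div_nonneg (Nat.cast_nonneg _) (Nat.cast_nonneg _)

lemma ex_abs_le {X : (α → ℕ) → ℝ} {p : (α → ℕ) → Prop}
    (h : ∀ f ∈ Om r M, |X f| ≤ if p f then 1 else 0) : |ex r M X| ≤ pr r M p := by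
  rw [ex, pr, abs_div, abs_of_nonneg (Nat.cast_nonneg (α := ℝ) (Om r M).card)]
  refine div_le_div_of_nonneg_right ?_ (Nat.cast_nonneg _)
  refine (abs_sum_le_sum_abs _ _).trans ((sum_le_sum h).trans ?_)
  rw [← sum_filter, sum_const, nsmul_eq_mul, mul_one]

lemma lo_mono {f : α → ℕ} {x y : α} (h : ∀ z, r z x → r z y) : lo r f x ≤ lo r f y := by
  rw [lo, lo]
  refine Finset.sup_mono fun z hz => ?_
  rw [mem_filter] at hz ⊢
  exact ⟨hz.1, h z hz.2⟩

lemma hi_mono {f : α → ℕ} {x y : α} (h : ∀ z, r x z → r y z) : hi r M f y ≤ hi r M f x := by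
  rw [hi, hi]
  refine Nat.sub_le_sub_left ?_ _
  refine Finset.sup_mono fun z hz => ?_
  rw [mem_filter] at hz ⊢
  exact ⟨hz.1, h z hz.2⟩

/-- Enumeration in the order of a key. -/
lemma exists_enum (C : Finset α) (k : α → ℕ) {n : ℕ} (hn : C.card = n) (h0 : 0 < n) :
    ∃ (e : ℕ → α) (l : α → ℕ), (∀ i < n, e i ∈ C) ∧ (∀ i < n, ∀ j < n, e i = e j → i = j) ∧
      (∀ i j, i ≤ j → j < n → k (e i) ≤ k (e j)) ∧ ∀ x ∈ C, l x < n ∧ e (l x) = x := by
  subst hn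
  obtain ⟨x0, _⟩ := card_pos.1 h0
  let E := C.equivFin
  let f : Fin C.card → ℕ := fun i => k (E.symm i)
  let σ := Tuple.sort f
  have hmono : Monotone (f ∘ σ) := Tuple.monotone_sort f
  let e : ℕ → α := fun i => if h : i < C.card then (E.symm (σ ⟨i, h⟩) : α) else x0
  let l : α → ℕ := fun x => if h : x ∈ C then (σ.symm (E ⟨x, h⟩)).val else 0
  have he : ∀ i (h : i < C.card), e i = (E.symm (σ ⟨i, h⟩) : α) := fun i h => dif_pos h
  refine ⟨e, l, ?_, ?_, ?_, ?_⟩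
  · intro i hi
    rw [he i hi]
    exact (E.symm (σ ⟨i, hi⟩)).2
  · intro i hi j hj h
    rw [he i hi, he j hj] at h
    have h1 := σ.injective (E.symm.injective (Subtype.ext h))
    exact congrArg Fin.val h1
  · intro i j hij hj
    rw [he i (lt_of_le_of_lt hij hj), he j hj]
    exact hmono (a := ⟨i, lt_of_le_of_lt hij hj⟩) (b := ⟨j, hj⟩) hij
  · intro x hx
    have h1 : l x = (σ.symm (E ⟨x, hx⟩)).val := dif_pos hx
    have h2 : l x < C.card := by rw [h1]; exact (σ.symm (E ⟨x, hx⟩)).2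
    refine ⟨h2, ?_⟩
    rw [he _ h2]
    have h3 : (⟨l x, h2⟩ : Fin C.card) = σ.symm (E ⟨x, hx⟩) := Fin.ext h1
    rw [h3, Equiv.apply_symm_apply, Equiv.symm_apply_apply]

/-- Two of the values are close. -/
lemma exists_close (X : Finset α) (b : ℕ) (hb : 1 ≤ b) (hX : 4 * b ≤ X.card) (μ : α → ℝ) (R : ℝ)
    (hR : 0 < R) (hμ : ∀ x ∈ X, |μ x| ≤ R) : ∃ x ∈ X, ∃ y ∈ X, x ≠ y ∧ |μ y - μ x| ≤ R / b := by
  have hb' : (0 : ℝ) < b := by exact_mod_cast hb
  let g : α → ℕ := fun x => ⌊(μ x + R) * b / R⌋₊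
  have hg : ∀ x ∈ X, g x ∈ range (2 * b + 1) := by
    intro x hx
    rw [mem_range, Nat.lt_succ_iff]
    refine Nat.floor_le_of_le ?_
    rw [div_le_iff₀ hR]
    have := (abs_le.1 (hμ x hx)).2
    push_cast
    nlinarith
  obtain ⟨x, hx, y, hy, hne, hxy⟩ := exists_ne_map_eq_of_card_lt_of_maps_to (s := X)
    (t := range (2 * b + 1)) (f := g) (by rw [card_range]; omega) hg
  refine ⟨x, hx, y, hy, hne, ?_⟩
  have h0 : ∀ z ∈ X, 0 ≤ (μ z + R) * b / R := fun z hz => by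
    have := (abs_le.1 (hμ z hz)).1
    exact div_nonneg (mul_nonneg (by linarith) hb'.le) hR.le
  have h1 : ∀ z ∈ X, (g z : ℝ) ≤ (μ z + R) * b / R ∧ (μ z + R) * b / R < g z + 1 := fun z hz =>
    ⟨Nat.floor_le (h0 z hz), Nat.lt_floor_add_one _⟩
  obtain ⟨a1, a2⟩ := h1 x hx
  obtain ⟨c1, c2⟩ := h1 y hy
  rw [hxy] at a1 a2
  rw [abs_le]
  have e1 : ∀ z, (μ z + R) * b / R = (μ z + R) * (b / R) := fun z => by ring
  rw [e1] at a1 a2 c1 c2
  have hq : 0 < (b : ℝ) / R := div_pos hb' hR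
  have e2 : R / b * (b / R) = 1 := by field_simp
  constructor
  · by_contra h
    push Not at h
    have := mul_lt_mul_of_pos_right h hq
    nlinarith
  · by_contra h
    push Not at h
    have := mul_lt_mul_of_pos_right h hq
    nlinarith

end basic

/-- the class for the reversed relation -/
lemma cls_rev (hDUAL : S_DUAL) {α : Type} [Fintype α] {r : α → α → Prop} {M b : ℕ} {κ : ℝ}
    {C : Finset α} (h : Cls r M b κ C) : Cls (fun a b => r b a) M b κ C where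
  one_b := h.one_b
  one_M := h.one_M
  anti a ha b hb := h.anti b hb a ha
  card := h.card
  cross x hx y hy z z' h1 h2 := h.cross y hy x hx z' z h2 h1
  nestD := h.nestU
  nestU := h.nestD
  kap x hx := by
    rw [(hDUAL α r M h.one_M).2.2.2 x (h.anti x hx x hx)]
    exact h.kap x hx
  le_κ := h.le_κ

/-- enumeration in the order of the lower sets -/
lemma enum_D {α : Type} [Fintype α] {r : α → α → Prop} {M b : ℕ} {κ : ℝ}
    {C : Finset α} (h : Cls r M b κ C) : ∃ (e : ℕ → α) (l : α → ℕ),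
      (∀ i < 8 * b ^ 3, e i ∈ C) ∧ (∀ i < 8 * b ^ 3, ∀ j < 8 * b ^ 3, e i = e j → i = j) ∧
      (∀ i j : ℕ, i ≤ j → j < 8 * b ^ 3 → ∀ z, r z (e i) → r z (e j)) ∧
      ∀ x ∈ C, l x < 8 * b ^ 3 ∧ e (l x) = x := by
  have hb := h.one_b
  have hpos : 0 < 8 * b ^ 3 := by positivity
  obtain ⟨e, l, h1, h2, h3, h4⟩ := exists_enum C (fun x => (univ.filter fun z => r z x).card)
    h.card hpos
  refine ⟨e, l, h1, h2, ?_, h4⟩
  intro i j hij hj z hz
  rcases h.nestD (e i) (h1 i (lt_of_le_of_lt hij hj)) (e j) (h1 j hj) with h5 | h5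
  · exact h5 z hz
  · have h6 : (univ.filter fun z => r z (e j)) ⊆ univ.filter fun z => r z (e i) := by
      intro z hz
      rw [mem_filter] at hz ⊢
      exact ⟨hz.1, h5 z hz.2⟩
    have h7 := eq_of_subset_of_card_le h6 (h3 i j hij hj)
    have h8 : z ∈ univ.filter fun z => r z (e i) := mem_filter.2 ⟨mem_univ _, hz⟩
    rw [← h7, mem_filter] at h8
    exact h8.2

/-- **CORE.** -/
theorem t_CORE (hSIDE : S_SIDE) (hCELL : S_CELL) (hTWO : S_TWO) (hVV : S_VV) (hDUAL : S_DUAL)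
    (hSGN : S_SGN) : S_CORE := by
  intro α _ r M b κ C hC
  have hb := hC.one_b
  have hb' : (1 : ℝ) ≤ b := by exact_mod_cast hb
  have hM := hC.one_M
  have hκ : 0 < κ := lt_of_lt_of_le (by linarith) hC.le_κ
  have hC' := cls_rev hDUAL hC
  obtain ⟨hD1, hD2, hD3, hD4⟩ := hDUAL α r M hM
  obtain ⟨e, l, e1, e2, e3, e4⟩ := enum_D hC
  obtain ⟨e', ρ, e1', e2', e3', e4'⟩ := enum_D hC'
  obtain ⟨QL, τL, qL1, qL2, qL3, qL4⟩ := hSIDE α r M b κ C hC e e1 e2 e3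
  obtain ⟨QR, τR, qR1, qR2, qR3, qR4⟩ := hSIDE α _ M b κ C hC' e' e1' e2' e3'
  have hinj : ∀ (e : ℕ → α) (l : α → ℕ), (∀ x ∈ C, l x < 8 * b ^ 3 ∧ e (l x) = x) →
      Set.InjOn l (C : Set α) := by
    intro e l h x hx y hy hxy
    rw [← (h x hx).2, ← (h y hy).2, hxy]
  obtain ⟨j, hj, k, hk, X, hXC, hX, hXl⟩ := hCELL α C b l ρ QL QR hb hC.card (hinj e l e4)
    (hinj e' ρ e4') (fun x hx => ⟨(e4 x hx).1, (e4' x hx).1⟩) qL1 qR1 qL2 qR2
  obtain ⟨i, hi1, hi2, hi3⟩ := qL4 j hj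
  obtain ⟨i', hi1', hi2', hi3'⟩ := qR4 k hk
  have hjb : j < b := mem_range.1 (qL1 hj)
  have hkb : k < b := mem_range.1 (qR1 hk)
  have hlt : ∀ j i : ℕ, j < b → i < 8 * b ^ 2 * (j + 1) → i < 8 * b ^ 3 := by
    intro j i hj hi
    refine lt_of_lt_of_le hi ?_
    calc 8 * b ^ 2 * (j + 1) ≤ 8 * b ^ 2 * b := Nat.mul_le_mul_left _ hj
      _ = 8 * b ^ 3 := by ring
  have hin : i < 8 * b ^ 3 := hlt j i hjb hi2
  have hin' : i' < 8 * b ^ 3 := hlt k i' hkb hi2'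
  set y0 := e i with hy0
  set z0 := e' i' with hz0
  set x1 := e (8 * b ^ 2 * j) with hx1
  set w1 := e' (8 * b ^ 2 * k) with hw1
  set τ := max τL τR with hτ
  have hy0C : y0 ∈ C := e1 i hin
  have hz0C : z0 ∈ C := e1' i' hin'
  -- the elements of the cell
  have cx : ∀ x ∈ X, (∀ z, r z x1 → r z x) ∧ (∀ z, r z x → r z y0) ∧ (∀ z, r w1 z → r x z) ∧
      ∀ z, r x z → r z0 z := by
    intro x hx
    obtain ⟨f1, f2, f3, f4⟩ := hXl x hx
    obtain ⟨g1, g2⟩ := e4 x (hXC hx)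
    obtain ⟨g3, g4⟩ := e4' x (hXC hx)
    refine ⟨?_, ?_, ?_, ?_⟩
    · intro z hz
      have := e3 _ _ f1 g1 z hz
      rwa [g2] at this
    · intro z hz
      have := e3 (l x) i (by omega) hin z
      rw [g2] at this
      exact this hz
    · intro z hz
      have := e3' _ _ f3 g3 z hz
      rwa [g4] at this
    · intro z hz
      have := e3' (ρ x) i' (by omega) hin' z
      rw [g4] at this
      exact this hz
  -- the bad event
  let Bad : (α → ℕ) → Prop := fun f => lo r f x1 + τ ≤ lo r f y0 ∨ hi r M f z0 + τ ≤ hi r M f w1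
  have hBad : pr r M Bad ≤ 2 / (b : ℝ) ^ 4 := by
    have h1 : pr r M (fun f => lo r f x1 + τ ≤ lo r f y0) ≤ 1 / (b : ℝ) ^ 4 := by
      refine le_trans (pr_mono fun f _ hf => ?_) hi3
      have : τL ≤ τ := le_max_left _ _
      omega
    have h2 : pr r M (fun f => hi r M f z0 + τ ≤ hi r M f w1) ≤ 1 / (b : ℝ) ^ 4 := by
      rw [hD1] at hi3'
      refine le_trans (pr_mono fun f hf hf2 => ?_) hi3'
      have h3 := hD3 f hf w1
      have h4 := hD3 f hf z0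
      rw [h3.1, h4.1]
      have : τR ≤ τ := le_max_right _ _
      have := h3.2.2.2.2.2
      have := h4.2.2.2.2.2
      omega
    refine (pr_or _ _).trans ?_
    have : (2 : ℝ) / (b : ℝ) ^ 4 = 1 / (b : ℝ) ^ 4 + 1 / (b : ℝ) ^ 4 := by ring
    rw [this]
    exact add_le_add h1 h2
  have hout : ∀ x ∈ X, ∀ f, ¬ Bad f → ¬ inJ r M y0 z0 x f → outT r M τ x f := by
    intro x hx f hB hJ
    obtain ⟨f1, f2, f3, f4⟩ := cx x hx
    have g1 : lo r f x1 ≤ lo r f x := lo_mono f1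
    have g2 : hi r M f x ≤ hi r M f w1 := hi_mono f3
    rw [outT]
    rw [inJ, not_and_or] at hJ
    have hB' : ¬ (lo r f x1 + τ ≤ lo r f y0 ∨ hi r M f z0 + τ ≤ hi r M f w1) := hB
    rw [not_or] at hB'
    rcases hJ with hJ | hJ
    · left; omega
    · right; omega
  -- the probability of `outT`
  have hprout : ∀ x ∈ X, pr r M (outT r M τ x) ≤ 4 * τ / κ := by
    intro x hx
    have hxC := hXC hx
    have hrx : ¬ r x x := hC.anti x hxC x hxC
    have hk1 := (hC.kap x hxC).1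
    have h1 : pr r M (fun f => f x < lo r f x + τ) ≤ 2 * τ / kap r M x :=
      (hVV α r M x hM hrx).2.1 τ
    have h2 : pr r M (fun f => hi r M f x < f x + τ) ≤ 2 * τ / kap r M x := by
      have h3 := (hVV α (fun a b => r b a) M x hM hrx).2.1 τ
      rw [hD1, hD4 x hrx] at h3
      refine le_trans (pr_mono fun f hf hf2 => ?_) h3
      have h4 := hD3 f hf x
      rw [h4.1, rev]
      have := h4.2.2.2.2.1
      have := h4.2.2.2.2.2
      omega
    have h5 : 2 * (τ : ℝ) / kap r M x ≤ 2 * τ / κ := by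
      refine div_le_div_of_nonneg_left (by positivity) hκ hk1
    refine (pr_or (fun f => f x < lo r f x + τ) (fun f => hi r M f x < f x + τ)).trans ?_
    have : 4 * (τ : ℝ) / κ = 2 * τ / κ + 2 * τ / κ := by ring
    rw [this]
    exact add_le_add (h1.trans h5) (h2.trans h5)
  set R : ℝ := 2 / (b : ℝ) ^ 4 + 4 * τ / κ with hR
  have hR0 : 0 < R := by positivity
  have hoo : ∀ x ∈ X, |ex r M (oo r M y0 z0 x)| ≤ R := by
    intro x hx
    have h1 : |ex r M (oo r M y0 z0 x)| ≤ pr r M (fun f => ¬ inJ r M y0 z0 x f) := by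
      refine ex_abs_le fun f _ => ?_
      rw [oo, inJ]
      split_ifs <;> first | (exfalso; omega) | simp
    refine h1.trans ?_
    have h2 : pr r M (fun f => ¬ inJ r M y0 z0 x f) ≤ pr r M (fun f => Bad f ∨ outT r M τ x f) := by
      refine pr_mono fun f _ hf => ?_
      by_cases hB : Bad f
      · exact Or.inl hB
      · exact Or.inr (hout x hx f hB hf)
    refine h2.trans ((pr_or _ _).trans ?_)
    exact add_le_add hBad (hprout x hx)
  obtain ⟨x, hx, y, hy, hxy, hcl⟩ := exists_close X b hb hX (fun x => ex r M (oo r M y0 z0 x)) R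
    hR0 hoo
  have hxC := hXC hx
  have hyC := hXC hy
  refine ⟨x, hxC, y, hyC, hxy, ?_⟩
  obtain ⟨x1', x2', x3', x4'⟩ := cx x hx
  obtain ⟨y1', y2', y3', y4'⟩ := cx y hy
  have hanti : Anti r {x, y, y0, z0} := by
    have hsub : ({x, y, y0, z0} : Finset α) ⊆ C := by
      intro a ha
      simp only [mem_insert, mem_singleton] at ha
      rcases ha with rfl | rfl | rfl | rfl
      · exact hxC
      · exact hyC
      · exact hy0C
      · exact hz0C
    exact fun a ha c hc => hC.anti a (hsub ha) c (hsub hc)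
  have hs := hSGN α r M x y y0 z0 hM hxy hanti x2' y2' x4' y4'
  have hpp : pr r M (fun f => ¬ inJ r M y0 z0 x f ∧ ¬ inJ r M y0 z0 y f) ≤
      2 / (b : ℝ) ^ 4 + 8 * (τ : ℝ) ^ 2 / κ ^ 2 := by
    have h2 : pr r M (fun f => ¬ inJ r M y0 z0 x f ∧ ¬ inJ r M y0 z0 y f) ≤
        pr r M (fun f => Bad f ∨ (outT r M τ x f ∧ outT r M τ y f)) := by
      refine pr_mono fun f _ hf => ?_
      by_cases hB : Bad f
      · exact Or.inl hB
      · exact Or.inr ⟨hout x hx f hB hf.1, hout y hy f hB hf.2⟩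
    refine h2.trans ((pr_or _ _).trans (add_le_add hBad ?_))
    have h3 := hTWO α r M x y hM hxy (hC.anti x hxC x hxC) (hC.anti y hyC y hyC)
      (hC.anti x hxC y hyC) (hC.anti y hyC x hxC) τ
    refine h3.trans (div_le_div_of_nonneg_left (by positivity) (by positivity) ?_)
    rw [sq]
    exact mul_le_mul (hC.kap x hxC).1 (hC.kap y hyC).1 hκ.le (hκ.le.trans (hC.kap x hxC).1)
  -- the final estimate
  set L : ℝ := (Lb b : ℝ) with hL
  have hL1 : 1 ≤ L := by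
    rw [hL]
    have : 1 ≤ Lb b := by rw [Lb]; omega
    exact_mod_cast this
  have hτ2 : (τ : ℝ) ≤ 2 ^ 24 * L ^ 3 * κ / b := by
    rw [hτ]
    push_cast
    exact max_le qL3 qR3
  have hτ3 : (τ : ℝ) / κ ≤ 2 ^ 24 * L ^ 3 / b := by
    rw [div_le_iff₀ hκ]
    calc (τ : ℝ) ≤ 2 ^ 24 * L ^ 3 * κ / b := hτ2
      _ = 2 ^ 24 * L ^ 3 / b * κ := by ring
  have hτ0 : 0 ≤ (τ : ℝ) / κ := by positivity
  have hb0 : (0 : ℝ) < b := by linarith
  have key : |ex r M (fun f => sg (f x) (f y))| ≤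
      R / b + 3 * (2 / (b : ℝ) ^ 4 + 8 * (τ : ℝ) ^ 2 / κ ^ 2) := by
    have h1 : |ex r M (fun f => sg (f x) (f y))| ≤
        |ex r M (fun f => sg (f x) (f y)) - (ex r M (oo r M y0 z0 y) - ex r M (oo r M y0 z0 x))| +
          |ex r M (oo r M y0 z0 y) - ex r M (oo r M y0 z0 x)| := by
      have := abs_add_le (ex r M (fun f => sg (f x) (f y)) -
        (ex r M (oo r M y0 z0 y) - ex r M (oo r M y0 z0 x)))
        (ex r M (oo r M y0 z0 y) - ex r M (oo r M y0 z0 x))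
      rwa [sub_add_cancel] at this
    refine h1.trans ?_
    rw [add_comm]
    refine add_le_add hcl (hs.trans ?_)
    exact mul_le_mul_of_nonneg_left hpp (by norm_num)
  refine key.trans ?_
  have t1 : 1 / (b : ℝ) ^ 4 ≤ 1 / (b : ℝ) ^ 2 :=
    div_le_div_of_nonneg_left (by norm_num) (by positivity) (pow_le_pow_right₀ hb' (by norm_num))
  have t2 : 1 / (b : ℝ) ^ 5 ≤ 1 / (b : ℝ) ^ 2 :=
    div_le_div_of_nonneg_left (by norm_num) (by positivity) (pow_le_pow_right₀ hb' (by norm_num))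
  have t3 : (τ : ℝ) / κ / b ≤ 2 ^ 24 * L ^ 3 * (1 / (b : ℝ) ^ 2) := by
    calc (τ : ℝ) / κ / b ≤ 2 ^ 24 * L ^ 3 / b / b := div_le_div_of_nonneg_right hτ3 hb0.le
      _ = _ := by field_simp
  have t4 : ((τ : ℝ) / κ) ^ 2 ≤ 2 ^ 48 * L ^ 6 * (1 / (b : ℝ) ^ 2) := by
    calc ((τ : ℝ) / κ) ^ 2 ≤ (2 ^ 24 * L ^ 3 / b) ^ 2 := pow_le_pow_left₀ hτ0 hτ3 2
      _ = _ := by field_simp
  have hB2 : 0 < 1 / (b : ℝ) ^ 2 := by positivity
  have hL36 : L ^ 3 ≤ L ^ 6 := pow_le_pow_right₀ hL1 (by norm_num)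
  have hL6 : 1 ≤ L ^ 6 := one_le_pow₀ hL1
  have e5 : R / b + 3 * (2 / (b : ℝ) ^ 4 + 8 * (τ : ℝ) ^ 2 / κ ^ 2) =
      2 * (1 / (b : ℝ) ^ 5) + 4 * ((τ : ℝ) / κ / b) + 6 * (1 / (b : ℝ) ^ 4) +
        24 * ((τ : ℝ) / κ) ^ 2 := by
    rw [hR]; field_simp; ring
  rw [e5]
  have e6 : 2 ^ 60 * L ^ 6 / (b : ℝ) ^ 2 = 2 ^ 60 * L ^ 6 * (1 / (b : ℝ) ^ 2) := by ring
  rw [e6]
  have t5 : L ^ 3 * (1 / (b : ℝ) ^ 2) ≤ L ^ 6 * (1 / (b : ℝ) ^ 2) :=
    mul_le_mul_of_nonneg_right hL36 hB2.le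
  have t6 : 1 * (1 / (b : ℝ) ^ 2) ≤ L ^ 6 * (1 / (b : ℝ) ^ 2) :=
    mul_le_mul_of_nonneg_right hL6 hB2.le
  nlinarith

end Pool.Agent.V5helper18.IR
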